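import Pool.Agent.Q319.MC.Main

set_option autoImplicit false

/-! Hereditary classes of graphs, and of structures over binary vocabularies, whose Specker functions
are not MC-finite. -/

namespace Pool.Agent.Results.MP_602553_lc.HereditaryBinary

open Pool.Agent.Q319.MC

/-- (1) For every finite relational vocabulary `τ` with symbols of arity at most `2`, at least one of
them binary, there is a substructure-closed class of finite `τ`-structures whose Specker function is
not MC-finite; in fact it is not ultimately periodic modulo `2`.  (2) There is a hereditary class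
of finite simple graphs for which the number of graphs with vertex set `Fin n` is not MC-finite, and
not ultimately periodic modulo `2`. -/
theorem result :
    (∀ τ : Voc, (∀ R, τ.ar R ≤ 2) → (∃ R, τ.ar R = 2) →
      ∃ C : HerClass τ, ¬ MCFinite C.Sp ∧ ¬ UP 2 C.Sp) ∧
    ∃ C : HerGraphClass, ¬ MCFinite C.Sp ∧ ¬ UP 2 C.Sp := by
  constructor
  · rintro τ - ⟨R, hR⟩
    obtain ⟨C, hC⟩ := exists_class R (le_of_eq hR.symm)
    exact ⟨C, fun h => hC (up_of_mc h 2 (by norm_num)), hC⟩
  · obtain ⟨C, hC⟩ := exists_graph_class
    exact ⟨C, fun h => hC (up_of_mc h 2 (by norm_num)), hC⟩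

end Pool.Agent.Results.MP_602553_lc.HereditaryBinary
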